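import Pool.Agent.R996.Bess.Ser

set_option autoImplicit false

namespace Pool.Agent.R996.Bess

open Filter Topology Set

noncomputable def D (ν t : ℝ) : ℝ := E ν t ^ 2 - E (ν - 1) t * E (ν + 1) t
noncomputable def ph (ν t : ℝ) : ℝ := D ν t / E ν t ^ 2
noncomputable def F (ν t : ℝ) : ℝ := t ^ (ν + 1) * D ν t
noncomputable def y (ν t : ℝ) : ℝ := t * E (ν + 1) t / E ν t
noncomputable def K (ν t : ℝ) : ℝ := t ^ (ν + 1) * (E ν t ^ 2 + (2 * y ν t - ν - 1) * D ν t)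

variable {ν : ℝ}

lemma rec2 (hν : 0 < ν) (t : ℝ) : t * E (ν + 2) t = (ν + 1) * E (ν + 1) t - E ν t := by
  have h := rec_E (ν := ν + 1) (by linarith) t
  have e1 : ν + 1 - 1 = ν := by ring
  have e2 : ν + 1 + 1 = ν + 2 := by ring
  rw [e1, e2] at h
  linarith

lemma hE (hν : 0 < ν) (t : ℝ) : HasDerivAt (E ν) (-E (ν + 1) t) t := hasDerivAt_E (by linarith) t

lemma hE1 (hν : 0 < ν) (t : ℝ) : HasDerivAt (E (ν + 1)) (-E (ν + 2) t) t := by
  have h := hasDerivAt_E (ν := ν + 1) (by linarith) t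
  have e2 : ν + 1 + 1 = ν + 2 := by ring
  rwa [e2] at h

lemma hEm (hν : 0 < ν) (t : ℝ) : HasDerivAt (E (ν - 1)) (-E ν t) t := by
  have h := hasDerivAt_E (ν := ν - 1) (by linarith) t
  have e2 : ν - 1 + 1 = ν := by ring
  rwa [e2] at h

lemma hD (hν : 0 < ν) (t : ℝ) :
    HasDerivAt (D ν) (-(E ν t * E (ν + 1) t) + E (ν - 1) t * E (ν + 2) t) t := by
  have h := ((hE hν t).pow 2).sub ((hEm hν t).mul (hE1 hν t))
  refine h.congr_deriv ?_
  push_cast
  ring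

lemma D_id (hν : 0 < ν) (t : ℝ) :
    (ν + 1) * D ν t + t * (-(E ν t * E (ν + 1) t) + E (ν - 1) t * E (ν + 2) t) = E ν t ^ 2 := by
  have h1 := rec_E hν t
  have h2 := rec2 hν t
  have : t * (-(E ν t * E (ν + 1) t) + E (ν - 1) t * E (ν + 2) t)
      = -(t * E ν t * E (ν + 1) t) + E (ν - 1) t * (t * E (ν + 2) t) := by ring
  rw [this, h2, D, h1]
  ring

lemma hF (hν : 0 < ν) {t : ℝ} (ht : 0 < t) : HasDerivAt (F ν) (t ^ ν * E ν t ^ 2) t := by
  have h1 : HasDerivAt (fun s : ℝ => s ^ (ν + 1)) ((ν + 1) * t ^ (ν + 1 - 1)) t :=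
    Real.hasDerivAt_rpow_const (Or.inl ht.ne')
  have h := h1.mul (hD hν t)
  refine h.congr_deriv ?_
  rw [← D_id hν t]
  have e1 : ν + 1 - 1 = ν := by ring
  have e2 : t ^ (ν + 1) = t ^ ν * t := by rw [Real.rpow_add_one ht.ne']
  rw [e1, e2]
  ring

lemma D_zero (hν : 0 < ν) : D ν 0 = (Real.Gamma (ν + 1))⁻¹ ^ 2 * (1 / (ν + 1)) := by
  unfold D
  rw [E_zero, E_zero, E_zero]
  have e1 : ν - 1 + 1 = ν := by ring
  rw [e1]
  have h1 : Real.Gamma (ν + 1) = ν * Real.Gamma ν := Real.Gamma_add_one hν.ne'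
  have h2 : Real.Gamma (ν + 1 + 1) = (ν + 1) * Real.Gamma (ν + 1) := Real.Gamma_add_one (by positivity)
  have h3 : 0 < Real.Gamma ν := Real.Gamma_pos_of_pos hν
  rw [h2, h1]
  field_simp
  ring

lemma D_zero_pos (hν : 0 < ν) : 0 < D ν 0 := by
  rw [D_zero hν]
  have := Real.Gamma_pos_of_pos (show 0 < ν + 1 by linarith)
  positivity

lemma cont_D (hν : 0 < ν) : Continuous (D ν) :=
  continuous_iff_continuousAt.mpr fun t => (hD hν t).continuousAt

lemma D_pos (hν : 0 < ν) {t : ℝ} (ht : 0 ≤ t) : 0 < D ν t := by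
  rcases ht.eq_or_lt with rfl | ht
  · exact D_zero_pos hν
  have h1 : ∀ᶠ s in 𝓝 (0:ℝ), 0 < D ν s := (cont_D hν).continuousAt.eventually (lt_mem_nhds (D_zero_pos hν))
  obtain ⟨ε, hε, h⟩ := Metric.eventually_nhds_iff.mp h1
  set s := min (ε / 2) t with hs
  have hs0 : 0 < s := lt_min (by positivity) ht
  have hsD : 0 < D ν s := h (by
    rw [Real.dist_eq, sub_zero, abs_of_pos hs0]
    exact (min_le_left _ _).trans_lt (by linarith))
  have hmono : MonotoneOn (F ν) (Ici s) := by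
    refine monotoneOn_of_deriv_nonneg (convex_Ici s) ?_ ?_ ?_
    · intro u hu
      exact (hF hν (hs0.trans_le hu)).continuousAt.continuousWithinAt
    · intro u hu
      rw [interior_Ici] at hu
      exact (hF hν (hs0.trans hu)).differentiableAt.differentiableWithinAt
    · intro u hu
      rw [interior_Ici] at hu
      rw [(hF hν (hs0.trans hu)).deriv]
      have : 0 < u := hs0.trans hu
      positivity
  have h2 := hmono (mem_Ici.mpr le_rfl) (mem_Ici.mpr (min_le_right _ _)) (min_le_right (ε / 2) t)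
  have h3 : 0 < F ν s := mul_pos (Real.rpow_pos_of_pos hs0 _) hsD
  have h4 : 0 < F ν t := h3.trans_le h2
  exact (mul_pos_iff_of_pos_left (Real.rpow_pos_of_pos ht _)).mp h4

lemma E1_ne (hν : 0 < ν) {t : ℝ} (ht : 0 ≤ t) (h : E ν t = 0) : E (ν + 1) t ≠ 0 := by
  intro h1
  have := D_pos hν ht
  rw [D, h, h1] at this
  simp at this

lemma hy (hν : 0 < ν) {t : ℝ} (h : E ν t ≠ 0) : HasDerivAt (y ν) (ph ν t) t := by
  have h1 := (((hasDerivAt_id t).mul (hE1 hν t)).div (hE hν t) h)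
  refine h1.congr_deriv ?_
  have h2 := rec_E hν t
  have h3 := rec2 hν t
  simp only [id, Pi.mul_apply]
  unfold ph D
  congr 1
  rw [h2]
  linear_combination (-E ν t) * h3

lemma ph_eq (hν : 0 < ν) {t : ℝ} (ht : t ≠ 0) (h : E ν t ≠ 0) :
    ph ν t = 1 + (y ν t ^ 2 - ν * y ν t) / t := by
  have h2 := rec_E hν t
  unfold ph D y
  rw [h2]
  field_simp
  ring

lemma ph_pos (hν : 0 < ν) {t : ℝ} (ht : 0 ≤ t) (h : E ν t ≠ 0) : 0 < ph ν t :=
  div_pos (D_pos hν ht) (by positivity)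

/-- derivative of the ratio -/
lemma hph (hν : 0 < ν) {t : ℝ} (ht : 0 < t) (h : E ν t ≠ 0) :
    HasDerivAt (ph ν) (K ν t / (t ^ (ν + 1) * t * E ν t ^ 2)) t := by
  have h1 := ((hasDerivAt_const t (1:ℝ)).add
    ((((hy hν h).pow 2).sub ((hy hν h).const_mul ν)).div (hasDerivAt_id t) ht.ne'))
  have hev : ph ν =ᶠ[𝓝 t] fun s => 1 + (y ν s ^ 2 - ν * y ν s) / s := by
    have e1 : ∀ᶠ s in 𝓝 t, E ν s ≠ 0 := (hE hν t).continuousAt.eventually_ne h
    have e2 : ∀ᶠ s in 𝓝 t, s ≠ 0 := eventually_ne_nhds ht.ne'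
    filter_upwards [e1, e2] with s hs1 hs2
    exact ph_eq hν hs2 hs1
  refine (h1.congr_of_eventuallyEq hev).congr_deriv ?_
  have hp := ph_eq hν ht.ne' h
  have hy2 : y ν t ^ 2 - ν * y ν t = t * (ph ν t - 1) := by
    rw [hp]; field_simp; ring
  have hp2 : D ν t = ph ν t * E ν t ^ 2 := by unfold ph; field_simp
  have ht1 : 0 < t ^ (ν + 1) := Real.rpow_pos_of_pos ht _
  simp only [id, Pi.sub_apply, Pi.pow_apply]
  unfold K
  rw [hp2, hy2]
  push_cast
  field_simp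
  ring

lemma hK (hν : 0 < ν) {t : ℝ} (ht : 0 < t) (h : E ν t ≠ 0) :
    HasDerivAt (K ν) (2 * ph ν t * F ν t) t := by
  have h1 : HasDerivAt (fun s : ℝ => s ^ (ν + 1)) ((ν + 1) * t ^ (ν + 1 - 1)) t :=
    Real.hasDerivAt_rpow_const (Or.inl ht.ne')
  have h2 := (h1.mul ((hE hν t).pow 2)).add ((((hy hν h).const_mul 2).sub_const (ν + 1)).mul (hF hν ht))
  have e : K ν = fun s => s ^ (ν + 1) * E ν s ^ 2 + (2 * y ν s - (ν + 1)) * F ν s := by
    funext s; unfold K F; ring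
  rw [e]
  refine h2.congr_deriv ?_
  have e1 : ν + 1 - 1 = ν := by ring
  have e2 : t ^ (ν + 1) = t ^ ν * t := by rw [Real.rpow_add_one ht.ne']
  have e3 : y ν t * E ν t = t * E (ν + 1) t := by unfold y; field_simp
  simp only [Pi.pow_apply]
  rw [e1, e2]
  push_cast
  linear_combination (2 * t ^ ν * E ν t) * e3

lemma ph_ge (hν : 0 < ν) {t : ℝ} (ht : 0 < t) (h : E ν t ≠ 0) :
    ph ν t = 1 - ν ^ 2 / (4 * t) + (y ν t - ν / 2) ^ 2 / t := by
  rw [ph_eq hν ht.ne' h]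
  field_simp
  ring

end Pool.Agent.R996.Bess
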