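import Mathlib

/-!
# Bessel functions of the first kind and the Turán ratio: definitions
-/

set_option autoImplicit false

namespace Pool.Agent.R996.Bess

open Filter Topology Set

/-- The Bessel function of the first kind `J_ν(x)`, for real order `ν` and `x > 0`, by its series
`∑ (-1)^m / (m! Γ(m + ν + 1)) * (x / 2)^(2 m + ν)` (real powers of `x / 2`). -/
noncomputable def besselJ (ν x : ℝ) : ℝ :=
  ∑' m : ℕ, (-1) ^ m / ((m.factorial : ℝ) * Real.Gamma (m + ν + 1)) * (x / 2) ^ (2 * (m : ℝ) + ν)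

/-- The Turán expression `Δ_ν(x) = J_ν(x)² - J_{ν-1}(x) J_{ν+1}(x)`. -/
noncomputable def turan (ν x : ℝ) : ℝ := besselJ ν x ^ 2 - besselJ (ν - 1) x * besselJ (ν + 1) x

/-- The Turán ratio `Φ_ν = Δ_ν / J_ν²`. -/
noncomputable def Phi (ν x : ℝ) : ℝ := turan ν x / besselJ ν x ^ 2

/-- `j` lists the positive zeros of `J_ν` increasingly as `j 1 < j 2 < ...`, and `j 0 = 0`. -/
def IsZeroList (ν : ℝ) (j : ℕ → ℝ) : Prop :=
  StrictMono j ∧ j 0 = 0 ∧ ∀ x : ℝ, (0 < x ∧ besselJ ν x = 0) ↔ ∃ k : ℕ, 1 ≤ k ∧ x = j k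

end Pool.Agent.R996.Bess
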