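import Pool.Agent.R996.Bess.Zer

set_option autoImplicit false

namespace Pool.Agent.R996.Bess

open Filter Topology Set

variable {ν : ℝ}

/-- `K` is strictly increasing between zeros -/
lemma K_strictMono (hν : 0 < ν) {a b : ℝ} (ha : 0 ≤ a) (hne : ∀ t ∈ Ioo a b, E ν t ≠ 0) :
    StrictMonoOn (K ν) (Ioo a b) := by
  refine strictMonoOn_of_deriv_pos (convex_Ioo a b) ?_ ?_
  · exact fun t ht => (hK hν (ha.trans_lt ht.1) (hne t ht)).continuousAt.continuousWithinAt
  · intro t ht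
    rw [interior_Ioo] at ht
    have ht0 := ha.trans_lt ht.1
    rw [(hK hν ht0 (hne t ht)).deriv]
    have h1 := ph_pos hν ht0.le (hne t ht)
    have h2 : 0 < F ν t := mul_pos (Real.rpow_pos_of_pos ht0 _) (D_pos hν ht0.le)
    positivity

/-- unique critical point between consecutive zeros; it is the strict minimum -/
lemma crit (hν : 0 < ν) {a b : ℝ} (ha : 0 < a) (hab : a < b) (ha0 : E ν a = 0) (hb0 : E ν b = 0)
    (hne : ∀ t ∈ Ioo a b, E ν t ≠ 0) :
    ∃ c ∈ Ioo a b, (∀ t ∈ Ioo a b, (K ν t = 0 ↔ t = c)) ∧ ∀ t ∈ Ioo a b, t ≠ c → ph ν c < ph ν t := by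
  have hinv : ∀ t, E ν t ^ 2 / D ν t = (ph ν t)⁻¹ := fun t => by unfold ph; rw [inv_div]
  obtain ⟨c, hc, hc0⟩ := exists_hasDerivAt_eq_zero (f := fun t => E ν t ^ 2 / D ν t)
    (f' := fun t => -(K ν t / (t ^ (ν + 1) * t * E ν t ^ 2)) / ph ν t ^ 2) hab
    (by
      refine ContinuousOn.div ?_ (cont_D hν).continuousOn fun t ht => (D_pos hν (ha.le.trans ht.1)).ne'
      exact ((cont_E (by linarith : -1 < ν)).pow 2).continuousOn)
    (by simp [ha0, hb0])
    (by
      intro t ht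
      have ht0 := ha.trans ht.1
      have h1 := (hph hν ht0 (hne t ht)).inv (ph_pos hν ht0.le (hne t ht)).ne'
      have : (fun t => E ν t ^ 2 / D ν t) = (ph ν)⁻¹ := by
        funext s; simp [hinv]
      rw [this]
      exact h1)
  have hc00 := ha.trans hc.1
  have hcE := hne c hc
  have hKc : K ν c = 0 := by
    have h1 := (ph_pos hν hc00.le hcE).ne'
    have h2 := (Real.rpow_pos_of_pos hc00 (ν + 1)).ne'
    have h3 := hc00.ne'
    simpa [h1, h2, h3, hcE] using hc0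
  have hmono := K_strictMono hν ha.le hne
  have hden : ∀ t ∈ Ioo a b, 0 < t ^ (ν + 1) * t * E ν t ^ 2 := by
    intro t ht
    have ht0 := ha.trans ht.1
    have h1 := hne t ht
    have := Real.rpow_pos_of_pos ht0 (ν + 1)
    positivity
  have hanti : StrictAntiOn (ph ν) (Ioc a c) := by
    refine strictAntiOn_of_deriv_neg (convex_Ioc a c) ?_ ?_
    · intro t ht
      have ht' : t ∈ Ioo a b := ⟨ht.1, ht.2.trans_lt hc.2⟩
      exact (hph hν (ha.trans ht.1) (hne t ht')).continuousAt.continuousWithinAt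
    · intro t ht
      rw [interior_Ioc] at ht
      have ht' : t ∈ Ioo a b := ⟨ht.1, ht.2.trans hc.2⟩
      rw [(hph hν (ha.trans ht.1) (hne t ht')).deriv]
      have h1 : K ν t < 0 := by rw [← hKc]; exact hmono ht' hc ht.2
      exact div_neg_of_neg_of_pos h1 (hden t ht')
  have hmon : StrictMonoOn (ph ν) (Ico c b) := by
    refine strictMonoOn_of_deriv_pos (convex_Ico c b) ?_ ?_
    · intro t ht
      have ht' : t ∈ Ioo a b := ⟨hc.1.trans_le ht.1, ht.2⟩
      exact (hph hν (ha.trans ht'.1) (hne t ht')).continuousAt.continuousWithinAt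
    · intro t ht
      rw [interior_Ico] at ht
      have ht' : t ∈ Ioo a b := ⟨hc.1.trans ht.1, ht.2⟩
      rw [(hph hν (ha.trans ht'.1) (hne t ht')).deriv]
      have h1 : 0 < K ν t := by rw [← hKc]; exact hmono hc ht' ht.1
      exact div_pos h1 (hden t ht')
  refine ⟨c, hc, fun t ht => ⟨fun h => hmono.injOn ht hc (h.trans hKc.symm), fun h => h ▸ hKc⟩,
    fun t ht htc => ?_⟩
  rcases lt_or_gt_of_ne htc with h | h
  · exact hanti ⟨ht.1, h.le⟩ ⟨hc.1, le_rfl⟩ h
  · exact hmon ⟨le_rfl, hc.2⟩ ⟨h.le, ht.2⟩ h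

/-- a point where `J'` vanishes -/
lemma rolle_pt (hν : 0 < ν) {a b : ℝ} (ha : 0 ≤ a) (hab : a < b) (ha0 : a = 0 ∨ E ν a = 0)
    (hb0 : E ν b = 0) (hne : ∀ t ∈ Ioo a b, E ν t ≠ 0) :
    ∃ c ∈ Ioo a b, ph ν c = 1 - ν ^ 2 / (4 * c) := by
  obtain ⟨c, hc, hc0⟩ := exists_hasDerivAt_eq_zero (f := fun t => t ^ (ν / 2) * E ν t)
    (f' := fun t => (ν / 2 * t ^ (ν / 2 - 1)) * E ν t + t ^ (ν / 2) * (-E (ν + 1) t)) hab
    (by
      refine ContinuousOn.mul ?_ (cont_E (by linarith : -1 < ν)).continuousOn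
      exact (Real.continuous_rpow_const (by positivity)).continuousOn)
    (by
      simp only [hb0, mul_zero]
      rcases ha0 with h | h
      · rw [h, Real.zero_rpow (by positivity), zero_mul]
      · rw [h, mul_zero])
    (by
      intro t ht
      have ht0 := ha.trans_lt ht.1
      exact (Real.hasDerivAt_rpow_const (Or.inl ht0.ne')).mul (hE hν t))
  have hc00 := ha.trans_lt hc.1
  have hcE := hne c hc
  refine ⟨c, hc, ?_⟩
  have e : c ^ (ν / 2) = c ^ (ν / 2 - 1) * c := by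
    rw [← Real.rpow_add_one hc00.ne']; congr 1; ring
  have h1 : c ^ (ν / 2 - 1) * (ν / 2 * E ν c - c * E (ν + 1) c) = 0 := by
    rw [← hc0, e]; ring
  have h2 : ν / 2 * E ν c - c * E (ν + 1) c = 0 :=
    (mul_eq_zero.mp h1).resolve_left (Real.rpow_pos_of_pos hc00 _).ne'
  have h3 : y ν c - ν / 2 = 0 := by
    unfold y
    field_simp
    linarith
  rw [ph_ge hν hc00 hcE, h3]
  simp

/-- on the first interval the ratio is strictly increasing from `1/(ν+1)` -/
lemma first (hν : 0 < ν) {b : ℝ} (hne : ∀ t ∈ Ioo 0 b, E ν t ≠ 0) :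
    ∀ t ∈ Ioo 0 b, 1 / (ν + 1) < ph ν t := by
  have hE0 : E ν 0 ≠ 0 := by
    rw [E_zero]
    exact inv_ne_zero (Real.Gamma_pos_of_pos (by linarith)).ne'
  have hne' : ∀ t ∈ Ico 0 b, E ν t ≠ 0 := by
    intro t ht
    rcases ht.1.eq_or_lt with h | h
    · rw [← h]; exact hE0
    · exact hne t ⟨h, ht.2⟩
  have hp0 : ph ν 0 = 1 / (ν + 1) := by
    unfold ph
    rw [D_zero hν, E_zero]
    have := Real.Gamma_pos_of_pos (show 0 < ν + 1 by linarith)
    field_simp
  have hcph : ContinuousOn (ph ν) (Ico 0 b) := by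
    intro t ht
    refine ContinuousAt.continuousWithinAt ?_
    exact ((cont_D hν).continuousAt).div ((cont_E (by linarith : -1 < ν)).continuousAt.pow 2)
      (pow_ne_zero 2 (hne' t ht))
  have hcK : ContinuousOn (K ν) (Ico 0 b) := by
    intro t ht
    refine ContinuousAt.continuousWithinAt ?_
    have hy0 : ContinuousAt (y ν) t := (hy hν (hne' t ht)).continuousAt
    have h1 : ContinuousAt (fun s : ℝ => s ^ (ν + 1)) t :=
      (Real.continuous_rpow_const (by linarith)).continuousAt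
    exact h1.mul (((cont_E (by linarith : -1 < ν)).continuousAt.pow 2).add
      ((((hy0.const_mul 2).sub continuousAt_const).sub continuousAt_const).mul (cont_D hν).continuousAt))
  have hK0 : K ν 0 = 0 := by
    unfold K
    rw [Real.zero_rpow (by linarith), zero_mul]
  have hKm : StrictMonoOn (K ν) (Ico 0 b) := by
    refine strictMonoOn_of_deriv_pos (convex_Ico 0 b) hcK ?_
    intro t ht
    rw [interior_Ico] at ht
    rw [(hK hν ht.1 (hne t ht)).deriv]
    have h1 := ph_pos hν ht.1.le (hne t ht)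
    have h2 : 0 < F ν t := mul_pos (Real.rpow_pos_of_pos ht.1 _) (D_pos hν ht.1.le)
    positivity
  have hpm : StrictMonoOn (ph ν) (Ico 0 b) := by
    refine strictMonoOn_of_deriv_pos (convex_Ico 0 b) hcph ?_
    intro t ht
    rw [interior_Ico] at ht
    rw [(hph hν ht.1 (hne t ht)).deriv]
    have h1 : 0 < K ν t := by
      rw [← hK0]
      exact hKm ⟨le_rfl, ht.1.trans ht.2⟩ ⟨ht.1.le, ht.2⟩ ht.1
    have h2 := hne t ht
    have h3 := ht.1
    have := Real.rpow_pos_of_pos ht.1 (ν + 1)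
    positivity
  intro t ht
  rw [← hp0]
  exact hpm ⟨le_rfl, ht.1.trans ht.2⟩ ⟨ht.1.le, ht.2⟩ ht.1

/-! ### transfer to the variable `x` -/

lemma Phi_eq (ν : ℝ) {x : ℝ} (hx : 0 < x) : Phi ν x = ph ν (x ^ 2 / 4) := by
  unfold Phi turan ph D
  rw [besselJ_eq ν hx, besselJ_eq (ν - 1) hx, besselJ_eq (ν + 1) hx]
  have h : 0 < x / 2 := by positivity
  have e1 : (x / 2) ^ (ν - 1) * (x / 2) ^ (ν + 1) = ((x / 2) ^ ν) ^ 2 := by
    rw [← Real.rpow_add h, ← Real.rpow_natCast, ← Real.rpow_mul h.le]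
    congr 1; push_cast; ring
  have h2 : (x / 2) ^ ν ≠ 0 := (Real.rpow_pos_of_pos h _).ne'
  have e2 : ((x / 2) ^ ν * E ν (x ^ 2 / 4)) ^ 2 - (x / 2) ^ (ν - 1) * E (ν - 1) (x ^ 2 / 4) *
      ((x / 2) ^ (ν + 1) * E (ν + 1) (x ^ 2 / 4)) = ((x / 2) ^ ν) ^ 2 *
      (E ν (x ^ 2 / 4) ^ 2 - E (ν - 1) (x ^ 2 / 4) * E (ν + 1) (x ^ 2 / 4)) := by
    linear_combination (-E (ν - 1) (x ^ 2 / 4) * E (ν + 1) (x ^ 2 / 4)) * e1
  rw [e2, mul_pow, mul_div_mul_left _ _ (pow_ne_zero 2 h2)]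

lemma besselJ_zero_iff (ν : ℝ) {x : ℝ} (hx : 0 < x) : besselJ ν x = 0 ↔ E ν (x ^ 2 / 4) = 0 := by
  rw [besselJ_eq ν hx, mul_eq_zero]
  have h : 0 < x / 2 := by positivity
  exact or_iff_right (Real.rpow_pos_of_pos h _).ne'

lemma hPhi (hν : 0 < ν) {x : ℝ} (hx : 0 < x) (h : E ν (x ^ 2 / 4) ≠ 0) :
    HasDerivAt (Phi ν) (K ν (x ^ 2 / 4) / ((x ^ 2 / 4) ^ (ν + 1) * (x ^ 2 / 4) * E ν (x ^ 2 / 4) ^ 2)
      * (x / 2)) x := by
  have h0 : 0 < x ^ 2 / 4 := by positivity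
  have h1 : HasDerivAt (fun x : ℝ => x ^ 2 / 4) (x / 2) x := by
    refine ((hasDerivAt_pow 2 x).div_const 4).congr_deriv ?_
    push_cast; ring
  have h2 := (hph hν h0 h).comp x h1
  refine h2.congr_of_eventuallyEq ?_
  filter_upwards [lt_mem_nhds hx] with s hs
  exact Phi_eq ν hs

lemma deriv_Phi_zero_iff (hν : 0 < ν) {x : ℝ} (hx : 0 < x) (h : E ν (x ^ 2 / 4) ≠ 0) :
    deriv (Phi ν) x = 0 ↔ K ν (x ^ 2 / 4) = 0 := by
  rw [(hPhi hν hx h).deriv]
  have h0 : 0 < x ^ 2 / 4 := by positivity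
  have h1 := (Real.rpow_pos_of_pos h0 (ν + 1)).ne'
  have h2 := h0.ne'
  have h3 : x / 2 ≠ 0 := by positivity
  constructor
  · intro h4
    rcases mul_eq_zero.mp h4 with h5 | h5
    · exact (div_eq_zero_iff.mp h5).resolve_right (mul_ne_zero (mul_ne_zero h1 h2) (pow_ne_zero 2 h))
    · exact absurd h5 h3
  · intro h4
    rw [h4]; simp

theorem main (ν : ℝ) (hν : 0 < ν) :
    ∃ j : ℕ → ℝ, IsZeroList ν j ∧
      Tendsto (Phi ν) (𝓝[>] 0) (𝓝 (1 / (ν + 1))) ∧
      (∀ n : ℕ, DifferentiableOn ℝ (Phi ν) (Ioo (j n) (j (n + 1)))) ∧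
      ∃ α β : ℕ → ℝ, α 0 = 0 ∧ β 0 = 1 / (ν + 1) ∧
        (∀ n : ℕ, 1 ≤ n → α n ∈ Ioo (j n) (j (n + 1)) ∧ β n = Phi ν (α n) ∧
          ∀ x ∈ Ioo (j n) (j (n + 1)), deriv (Phi ν) x = 0 ↔ x = α n) ∧
        StrictMono β ∧
        ∀ n : ℕ, ∀ x ∈ Ioo (j n) (j (n + 1)), x ≠ α n → β n < Phi ν x := by
  obtain ⟨z, hz, hz0, hzE, hzne, hzall⟩ := exists_enum (f := E ν) (f' := fun t => -E (ν + 1) t)
    (hE hν) (fun t ht h => neg_ne_zero.mpr (E1_ne hν ht h)) (zeros_unbdd hν)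
  have hz' : ∀ n, 0 ≤ z n := fun n => by rw [← hz0]; exact hz.monotone (Nat.zero_le n)
  have hzpos : ∀ n, 1 ≤ n → 0 < z n := fun n hn => by rw [← hz0]; exact hz (by omega)
  have hzE' : ∀ n, 1 ≤ n → E ν (z n) = 0 := fun n hn => by
    obtain ⟨k, rfl⟩ := Nat.exists_eq_add_of_le' hn
    exact hzE k
  -- critical points
  have hcrit : ∀ n : ℕ, ∃ c, 1 ≤ n → c ∈ Ioo (z n) (z (n + 1)) ∧
      (∀ t ∈ Ioo (z n) (z (n + 1)), (K ν t = 0 ↔ t = c)) ∧
      ∀ t ∈ Ioo (z n) (z (n + 1)), t ≠ c → ph ν c < ph ν t := by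
    intro n
    by_cases hn : 1 ≤ n
    · obtain ⟨c, h1, h2⟩ := crit hν (hzpos n hn) (hz (Nat.lt_succ_self n)) (hzE' n hn) (hzE n) (hzne n)
      exact ⟨c, fun _ => ⟨h1, h2⟩⟩
    · exact ⟨0, fun h => absurd h hn⟩
  choose c hc using hcrit
  have hrol : ∀ n : ℕ, ∃ d ∈ Ioo (z n) (z (n + 1)), ph ν d = 1 - ν ^ 2 / (4 * d) := by
    intro n
    refine rolle_pt hν (hz' n) (hz (Nat.lt_succ_self n)) ?_ (hzE n) (hzne n)
    by_cases hn : 1 ≤ n
    · exact Or.inr (hzE' n hn)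
    · have : n = 0 := by omega
      rw [this]; exact Or.inl hz0
  -- the scale `x = 2 √t`
  set s : ℝ → ℝ := fun t => 2 * Real.sqrt t with hs
  have hs_sq : ∀ t, 0 ≤ t → (s t) ^ 2 / 4 = t := fun t ht => by
    simp only [hs, mul_pow, Real.sq_sqrt ht]; ring
  have hs_inv : ∀ x, 0 ≤ x → s (x ^ 2 / 4) = x := fun x hx => by
    have : x ^ 2 / 4 = (x / 2) ^ 2 := by ring
    simp only [hs]
    rw [this, Real.sqrt_sq (by positivity)]; ring
  have hs_lt : ∀ a b, 0 ≤ a → a < b → s a < s b := fun a b ha hab => by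
    simp only [hs]
    have := Real.sqrt_lt_sqrt ha hab
    linarith
  have hs_nn : ∀ a, 0 ≤ s a := fun a => by simp only [hs]; positivity
  have hs_pos : ∀ a, 0 < a → 0 < s a := fun a ha => by
    simp only [hs]
    have := Real.sqrt_pos.mpr ha
    linarith
  have hconv : ∀ a b x, 0 ≤ a → 0 ≤ b → x ∈ Ioo (s a) (s b) → x ^ 2 / 4 ∈ Ioo a b := by
    intro a b x ha hb hx
    have hx0 : 0 < x := (hs_nn a).trans_lt hx.1
    constructor
    · rw [← hs_sq a ha]
      have : (s a) ^ 2 < x ^ 2 := by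
        have := hs_nn a
        nlinarith [hx.1]
      linarith
    · rw [← hs_sq b hb]
      have : x ^ 2 < (s b) ^ 2 := by
        have := hs_nn b
        nlinarith [hx.2]
      linarith
  have hconvI : ∀ n x, x ∈ Ioo (s (z n)) (s (z (n + 1))) → 0 < x ∧ x ^ 2 / 4 ∈ Ioo (z n) (z (n + 1)) :=
    fun n x hx => ⟨(hs_nn _).trans_lt hx.1, hconv _ _ x (hz' n) (hz' (n + 1)) hx⟩
  have hbeta : ∀ n, 1 ≤ n → ∀ t ∈ Ioo (z n) (z (n + 1)), ph ν (c n) ≤ ph ν t := by
    intro n hn t ht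
    by_cases h : t = c n
    · rw [h]
    · exact ((hc n hn).2.2 t ht h).le
  refine ⟨fun n => s (z n), ⟨?_, ?_, ?_⟩, ?_, ?_, fun n => if n = 0 then 0 else s (c n),
    fun n => if n = 0 then 1 / (ν + 1) else ph ν (c n), by simp, by simp, ?_, ?_, ?_⟩
  · exact strictMono_nat_of_lt_succ fun n => hs_lt _ _ (hz' n) (hz (Nat.lt_succ_self n))
  · simp [hs, hz0]
  · intro x
    constructor
    · rintro ⟨hx, hJ⟩
      rw [besselJ_zero_iff ν hx] at hJ
      obtain ⟨k, hk, hk'⟩ := hzall _ (by positivity) hJ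
      exact ⟨k, hk, by show x = s (z k); rw [← hk', hs_inv x hx.le]⟩
    · rintro ⟨k, hk, rfl⟩
      have h0 := hs_pos _ (hzpos k hk)
      exact ⟨h0, by rw [besselJ_zero_iff ν h0, hs_sq _ (hz' k)]; exact hzE' k hk⟩
  · have hE0 : E ν 0 ≠ 0 := by
      rw [E_zero]
      exact inv_ne_zero (Real.Gamma_pos_of_pos (by linarith)).ne'
    have hp0 : ph ν 0 = 1 / (ν + 1) := by
      unfold ph
      rw [D_zero hν, E_zero]
      have := Real.Gamma_pos_of_pos (show 0 < ν + 1 by linarith)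
      field_simp
    have hcph : ContinuousAt (ph ν) 0 :=
      ((cont_D hν).continuousAt).div ((cont_E (by linarith : -1 < ν)).continuousAt.pow 2)
        (pow_ne_zero 2 hE0)
    have h1 : Tendsto (fun x : ℝ => x ^ 2 / 4) (𝓝[>] 0) (𝓝 0) := by
      have : ContinuousAt (fun x : ℝ => x ^ 2 / 4) 0 := by fun_prop
      have h2 := this.tendsto
      simp only [ne_eq, OfNat.ofNat_ne_zero, not_false_eq_true, zero_pow, zero_div] at h2
      exact h2.mono_left nhdsWithin_le_nhds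
    rw [← hp0]
    refine (hcph.tendsto.comp h1).congr' ?_
    filter_upwards [self_mem_nhdsWithin] with x hx
    exact (Phi_eq ν hx).symm
  · intro n x hx
    obtain ⟨hx0, hx1⟩ := hconvI n x hx
    exact (hPhi hν hx0 (hzne n _ hx1)).differentiableAt.differentiableWithinAt
  · intro n hn
    have hn0 : n ≠ 0 := by omega
    have hcn := (hc n hn).1
    have hc0 : 0 < c n := (hz' n).trans_lt hcn.1
    simp only [hn0, if_false]
    refine ⟨⟨hs_lt _ _ (hz' n) hcn.1, hs_lt _ _ hc0.le hcn.2⟩, ?_, ?_⟩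
    · rw [Phi_eq ν (hs_pos _ hc0), hs_sq _ hc0.le]
    · intro x hx
      obtain ⟨hx0, hx1⟩ := hconvI n x hx
      rw [deriv_Phi_zero_iff hν hx0 (hzne n _ hx1), (hc n hn).2.1 _ hx1]
      constructor
      · intro h; rw [← h, hs_inv x hx0.le]
      · intro h; rw [h, hs_sq _ hc0.le]
  · refine strictMono_nat_of_lt_succ fun n => ?_
    obtain ⟨d, hd, hd1⟩ := hrol n
    have hd0 : 0 < d := (hz' n).trans_lt hd.1
    have hn1 : n + 1 ≠ 0 := by omega
    simp only [hn1, if_false]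
    have hcn := (hc (n + 1) (by omega)).1
    have hc0 : 0 < c (n + 1) := (hz' (n + 1)).trans_lt hcn.1
    have h1 : ph ν d < ph ν (c (n + 1)) := by
      rw [hd1, ph_ge hν hc0 (hzne _ _ hcn)]
      have h2 : ν ^ 2 / (4 * c (n + 1)) < ν ^ 2 / (4 * d) := by
        apply div_lt_div_of_pos_left (by positivity) (by positivity)
        have := hd.2.trans hcn.1
        linarith
      have h3 : 0 ≤ (y ν (c (n + 1)) - ν / 2) ^ 2 / c (n + 1) := by positivity
      linarith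
    refine lt_of_le_of_lt ?_ h1
    by_cases hn : n = 0
    · simp only [hn, if_true]
      refine (first hν (b := z 1) ?_ d ?_).le
      · intro t ht
        have := hzne 0 t
        rw [hz0] at this
        exact this ht
      · rw [hn, hz0] at hd
        exact hd
    · simp only [hn, if_false]
      exact hbeta n (by omega) d hd
  · intro n x hx hxa
    obtain ⟨hx0, hx1⟩ := hconvI n x hx
    rw [Phi_eq ν hx0]
    by_cases hn : n = 0
    · simp only [hn, if_true]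
      refine first hν (b := z 1) ?_ _ ?_
      · intro t ht
        have := hzne 0 t
        rw [hz0] at this
        exact this ht
      · rw [hn, hz0] at hx1
        exact hx1
    · simp only [hn, if_false] at hxa ⊢
      refine (hc n (by omega)).2.2 _ hx1 fun h => hxa ?_
      rw [← h, hs_inv x hx0.le]

end Pool.Agent.R996.Bess
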