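import Pool.Agent.R996.Bess.Defs

set_option autoImplicit false

namespace Pool.Agent.R996.Bess

open Filter Topology Set

/-- Bessel-Clifford function of real order -/
noncomputable def E (ν t : ℝ) : ℝ :=
  ∑' m : ℕ, (-1) ^ m * t ^ m / ((m.factorial : ℝ) * Real.Gamma (m + ν + 1))

lemma gpos {ν : ℝ} (hν : -1 < ν) (m : ℕ) : 0 < Real.Gamma (m + ν + 1) :=
  Real.Gamma_pos_of_pos (by have : (0:ℝ) ≤ m := Nat.cast_nonneg m; linarith)

lemma gmono {ν : ℝ} (hν : -1 < ν) (m : ℕ) : Real.Gamma (ν + 2) ≤ Real.Gamma ((m + 1 : ℕ) + ν + 1) := by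
  induction m with
  | zero => apply le_of_eq; congr 1; push_cast; ring
  | succ m ih =>
    have h0 : (0:ℝ) ≤ m := Nat.cast_nonneg m
    have h1 : Real.Gamma ((m + 1 + 1 : ℕ) + ν + 1) = ((m + 1 : ℕ) + ν + 1) * Real.Gamma ((m + 1 : ℕ) + ν + 1) := by
      rw [← Real.Gamma_add_one]
      · congr 1; push_cast; ring
      · push_cast; linarith
    rw [h1]
    have h2 := gpos hν (m + 1)
    have h3 : (1:ℝ) ≤ ((m + 1 : ℕ) + ν + 1) := by push_cast; linarith
    nlinarith

lemma glow {ν : ℝ} (hν : -1 < ν) : ∃ c : ℝ, 0 < c ∧ ∀ m : ℕ, c ≤ Real.Gamma (m + ν + 1) := by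
  refine ⟨min (Real.Gamma (ν + 1)) (Real.Gamma (ν + 2)),
    lt_min (Real.Gamma_pos_of_pos (by linarith)) (Real.Gamma_pos_of_pos (by linarith)), fun m => ?_⟩
  cases m with
  | zero => refine (min_le_left _ _).trans (le_of_eq ?_); congr 1; push_cast; ring
  | succ m => exact (min_le_right _ _).trans (gmono hν m)

lemma term_le {ν c : ℝ} (hc : 0 < c) (h : ∀ m : ℕ, c ≤ Real.Gamma (m + ν + 1)) (t : ℝ) (m : ℕ) :
    ‖(-1) ^ m * t ^ m / ((m.factorial : ℝ) * Real.Gamma (m + ν + 1))‖ ≤ c⁻¹ * (|t| ^ m / m.factorial) := by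
  have hf : (0:ℝ) < m.factorial := by exact_mod_cast m.factorial_pos
  have hg : 0 < Real.Gamma (m + ν + 1) := hc.trans_le (h m)
  rw [norm_div, norm_mul, norm_pow, norm_pow, norm_neg, norm_one, one_pow, one_mul, norm_mul,
    Real.norm_eq_abs, Real.norm_eq_abs, Real.norm_eq_abs, abs_of_pos hf, abs_of_pos hg]
  rw [div_mul_eq_div_div, inv_mul_eq_div]
  exact div_le_div_of_nonneg_left (by positivity) hc (h m)

lemma summ {ν : ℝ} (hν : -1 < ν) (t : ℝ) :
    Summable fun m : ℕ => (-1) ^ m * t ^ m / ((m.factorial : ℝ) * Real.Gamma (m + ν + 1)) := by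
  obtain ⟨c, hc, h⟩ := glow hν
  refine Summable.of_norm_bounded ((Real.summable_pow_div_factorial |t|).mul_left c⁻¹) fun m => ?_
  exact term_le hc h t m

lemma hasDerivAt_E {ν : ℝ} (hν : -1 < ν) (t : ℝ) : HasDerivAt (E ν) (-E (ν + 1) t) t := by
  obtain ⟨c, hc, h⟩ := glow hν
  set R : ℝ := |t| + 1 with hR
  have hR0 : 0 < R := by positivity
  have key := hasDerivAt_tsum_of_isPreconnected (𝕜 := ℝ)
    (g := fun (m : ℕ) (s : ℝ) => (-1) ^ m * s ^ m / ((m.factorial : ℝ) * Real.Gamma (m + ν + 1)))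
    (g' := fun (m : ℕ) (s : ℝ) => (-1) ^ m * (m * s ^ (m - 1)) / ((m.factorial : ℝ) * Real.Gamma (m + ν + 1)))
    (u := fun m : ℕ => c⁻¹ * (m * R ^ (m - 1) / m.factorial)) (t := Metric.ball 0 R) (y₀ := 0) (y := t)
    ?_ Metric.isOpen_ball (convex_ball 0 R).isPreconnected ?_ ?_ (by simpa using hR0) (summ hν 0)
    (by simp [hR])
  · refine key.congr_deriv ?_
    have hs : Summable fun m : ℕ => (-1) ^ m * (m * t ^ (m - 1)) / ((m.factorial : ℝ) * Real.Gamma (m + ν + 1)) := by
      have := (summ (ν := ν + 1) (by linarith) t).neg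
      rw [← summable_nat_add_iff 1]
      refine this.congr fun m => ?_
      have hf : ((m + 1).factorial : ℝ) = (m + 1) * m.factorial := by
        rw [Nat.factorial_succ]; push_cast; ring
      have hf0 : (0:ℝ) < m.factorial := by exact_mod_cast m.factorial_pos
      have e1 : ((m + 1 : ℕ) : ℝ) + ν + 1 = (m : ℝ) + (ν + 1) + 1 := by push_cast; ring
      have hm : ((m : ℝ) + 1) ≠ 0 := by positivity
      rw [e1, hf, pow_succ, Nat.add_sub_cancel]
      push_cast
      have hg := gpos (ν := ν + 1) (by linarith) m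
      field_simp
    rw [hs.tsum_eq_zero_add, E, ← tsum_neg]
    simp only [Nat.cast_zero, zero_mul, mul_zero, zero_div, zero_add]
    refine tsum_congr fun m => ?_
    have hf : ((m + 1).factorial : ℝ) = (m + 1) * m.factorial := by
      rw [Nat.factorial_succ]; push_cast; ring
    have hf0 : (0:ℝ) < m.factorial := by exact_mod_cast m.factorial_pos
    have e1 : ((m + 1 : ℕ) : ℝ) + ν + 1 = (m : ℝ) + (ν + 1) + 1 := by push_cast; ring
    have hm : ((m : ℝ) + 1) ≠ 0 := by positivity
    rw [e1, hf, pow_succ, Nat.add_sub_cancel]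
    push_cast
    have hg := gpos (ν := ν + 1) (by linarith) m
    field_simp
  · refine Summable.mul_left _ ?_
    rw [← summable_nat_add_iff 1]
    refine (Real.summable_pow_div_factorial R).congr fun m => ?_
    have hf : ((m + 1).factorial : ℝ) = (m + 1) * m.factorial := by
      rw [Nat.factorial_succ]; push_cast; ring
    have hf0 : (0:ℝ) < m.factorial := by exact_mod_cast m.factorial_pos
    rw [hf, Nat.add_sub_cancel]
    push_cast
    field_simp
  · intro m s _
    exact ((hasDerivAt_pow m s).const_mul ((-1) ^ m)).div_const _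
  · intro m s hs
    have hs' : |s| ≤ R := by
      have := Metric.mem_ball.mp hs
      rw [Real.dist_eq, sub_zero] at this
      exact this.le
    have hf : (0:ℝ) < m.factorial := by exact_mod_cast m.factorial_pos
    have hg : 0 < Real.Gamma (m + ν + 1) := hc.trans_le (h m)
    rw [norm_div, norm_mul, norm_pow, norm_neg, norm_one, one_pow, one_mul, norm_mul, norm_mul, norm_pow,
      Real.norm_eq_abs, Real.norm_eq_abs, Real.norm_eq_abs, Real.norm_eq_abs, abs_of_pos hf, abs_of_pos hg,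
      Nat.abs_cast]
    rw [div_mul_eq_div_div, inv_mul_eq_div]
    refine div_le_div₀ (by positivity) ?_ hc (h m)
    gcongr

lemma cont_E {ν : ℝ} (hν : -1 < ν) : Continuous (E ν) :=
  continuous_iff_continuousAt.mpr fun t => (hasDerivAt_E hν t).continuousAt

lemma E_zero (ν : ℝ) : E ν 0 = (Real.Gamma (ν + 1))⁻¹ := by
  unfold E
  rw [tsum_eq_single 0]
  · simp
  · intro m hm
    simp [hm]

/-- the recurrence `E_{ν-1} = ν E_ν - t E_{ν+1}` -/
lemma rec_E {ν : ℝ} (hν : 0 < ν) (t : ℝ) : E (ν - 1) t = ν * E ν t - t * E (ν + 1) t := by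
  have h1 := summ (ν := ν) (by linarith) t
  have h2 := summ (ν := ν - 1) (by linarith) t
  -- t E_{ν+1} as a series with m-weights
  have h3 : t * E (ν + 1) t = ∑' m : ℕ, -((m : ℝ) * ((-1) ^ m * t ^ m / ((m.factorial : ℝ) * Real.Gamma (m + ν + 1)))) := by
    have hs : Summable fun m : ℕ => -((m : ℝ) * ((-1) ^ m * t ^ m / ((m.factorial : ℝ) * Real.Gamma (m + ν + 1)))) := by
      rw [← summable_nat_add_iff 1]
      refine ((summ (ν := ν + 1) (by linarith) t).mul_left t).congr fun m => ?_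
      have hf : ((m + 1).factorial : ℝ) = (m + 1) * m.factorial := by
        rw [Nat.factorial_succ]; push_cast; ring
      have hf0 : (0:ℝ) < m.factorial := by exact_mod_cast m.factorial_pos
      have e1 : ((m + 1 : ℕ) : ℝ) + ν + 1 = (m : ℝ) + (ν + 1) + 1 := by push_cast; ring
      have hm : ((m : ℝ) + 1) ≠ 0 := by positivity
      rw [e1, hf]
      push_cast
      have hg := gpos (ν := ν + 1) (by linarith) m
      field_simp
      ring
    rw [hs.tsum_eq_zero_add, E, ← tsum_mul_left]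
    simp only [Nat.cast_zero, zero_mul, neg_zero, zero_add]
    refine tsum_congr fun m => ?_
    have hf : ((m + 1).factorial : ℝ) = (m + 1) * m.factorial := by
      rw [Nat.factorial_succ]; push_cast; ring
    have hf0 : (0:ℝ) < m.factorial := by exact_mod_cast m.factorial_pos
    have e1 : ((m + 1 : ℕ) : ℝ) + ν + 1 = (m : ℝ) + (ν + 1) + 1 := by push_cast; ring
    have hm : ((m : ℝ) + 1) ≠ 0 := by positivity
    rw [e1, hf]
    push_cast
    have hg := gpos (ν := ν + 1) (by linarith) m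
    field_simp
    ring
  have h4 : ∀ m : ℕ, (-1) ^ m * t ^ m / ((m.factorial : ℝ) * Real.Gamma (m + (ν - 1) + 1))
      = ν * ((-1) ^ m * t ^ m / ((m.factorial : ℝ) * Real.Gamma (m + ν + 1)))
        - (-((m : ℝ) * ((-1) ^ m * t ^ m / ((m.factorial : ℝ) * Real.Gamma (m + ν + 1))))) := by
    intro m
    have hm0 : (0:ℝ) ≤ m := Nat.cast_nonneg m
    have e1 : Real.Gamma (m + ν + 1) = (m + ν) * Real.Gamma (m + (ν - 1) + 1) := by
      have : (m : ℝ) + (ν - 1) + 1 = m + ν := by ring
      rw [this, Real.Gamma_add_one (by positivity)]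
    have hg := gpos (ν := ν - 1) (by linarith) m
    have hf0 : (0:ℝ) < m.factorial := by exact_mod_cast m.factorial_pos
    have hmn : (m : ℝ) + ν ≠ 0 := by positivity
    rw [e1]
    field_simp
    ring
  have h5 : Summable fun m : ℕ => -((m : ℝ) * ((-1) ^ m * t ^ m / ((m.factorial : ℝ) * Real.Gamma (m + ν + 1)))) := by
    have := (h1.mul_left ν).sub h2
    refine this.congr fun m => ?_
    rw [h4 m]; ring
  rw [h3]
  unfold E
  rw [← tsum_mul_left, ← (h1.mul_left ν).tsum_sub h5]
  exact tsum_congr h4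

/-- the Bessel function in terms of `E` -/
lemma besselJ_eq (ν : ℝ) {x : ℝ} (hx : 0 < x) : besselJ ν x = (x / 2) ^ ν * E ν (x ^ 2 / 4) := by
  unfold besselJ E
  rw [← tsum_mul_left]
  refine tsum_congr fun m => ?_
  have h : 0 < x / 2 := by positivity
  rw [Real.rpow_add h, Real.rpow_mul h.le, Real.rpow_natCast]
  have : ((x / 2) ^ (2 : ℝ)) = x ^ 2 / 4 := by
    rw [Real.rpow_two]; ring
  rw [this]
  ring

end Pool.Agent.R996.Bess
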