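import Pool.Agent.R996.Bess.Ana

set_option autoImplicit false

namespace Pool.Agent.R996.Bess

open Filter Topology Set

/-- the zeros are unbounded -/
lemma zeros_unbdd {ν : ℝ} (hν : 0 < ν) (T : ℝ) : ∃ t, T < t ∧ E ν t = 0 := by
  by_contra hcon
  push Not at hcon
  set T₀ : ℝ := max T 0 + ν ^ 2 + 1 with hT₀
  have hT1 : T < T₀ := by have := le_max_left T 0; nlinarith [sq_nonneg ν]
  have hT2 : 1 ≤ T₀ := by have := le_max_right T 0; nlinarith [sq_nonneg ν]
  have hT3 : ν ^ 2 ≤ T₀ := by have := le_max_right T 0; linarith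
  have hne : ∀ t, T₀ ≤ t → E ν t ≠ 0 := fun t ht => hcon t (hT1.trans_le ht)
  have hlow : ∀ t, T₀ ≤ t → 3 / 4 + (y ν t - ν / 2) ^ 2 / t ≤ ph ν t := by
    intro t ht
    have ht0 : 0 < t := by linarith
    rw [ph_ge hν ht0 (hne t ht)]
    have : ν ^ 2 / (4 * t) ≤ 1 / 4 := by
      rw [div_le_div_iff₀ (by positivity) (by norm_num)]
      nlinarith
    linarith
  -- linear growth
  have hmono : MonotoneOn (fun t => y ν t - 3 / 4 * t) (Ici T₀) := by
    have hd : ∀ t, T₀ ≤ t → HasDerivAt (fun t => y ν t - 3 / 4 * t) (ph ν t - 3 / 4 * 1) t :=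
      fun t ht => (hy hν (hne t ht)).sub ((hasDerivAt_id t).const_mul _)
    refine monotoneOn_of_deriv_nonneg (convex_Ici T₀) ?_ ?_ ?_
    · exact fun u hu => (hd u hu).continuousAt.continuousWithinAt
    · intro u hu
      rw [interior_Ici] at hu
      exact (hd u (le_of_lt hu)).differentiableAt.differentiableWithinAt
    · intro u hu
      rw [interior_Ici] at hu
      rw [(hd u (le_of_lt hu)).deriv]
      have h1 := hlow u (le_of_lt hu)
      have h2 : 0 ≤ (y ν u - ν / 2) ^ 2 / u := by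
        have : 0 < u := by have := mem_Ioi.mp hu; linarith
        positivity
      linarith
  set c := y ν T₀ - ν / 2 with hc
  set t1 : ℝ := T₀ + 2 * |c| + 1 with ht1
  have ht10 : T₀ ≤ t1 := by have := abs_nonneg c; linarith
  have hpos : ∀ t, t1 ≤ t → 0 < y ν t - ν / 2 := by
    intro t ht
    have h1 := hmono (mem_Ici.mpr le_rfl) (mem_Ici.mpr (ht10.trans ht)) (ht10.trans ht)
    simp only at h1
    have h2 : t1 ≤ t := ht
    have h3 : -|c| ≤ c := neg_abs_le c
    have h4 := abs_nonneg c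
    nlinarith
  have hq : ∀ t, t1 ≤ t → HasDerivAt (fun t => (y ν t - ν / 2)⁻¹ + Real.log t)
      (-ph ν t / (y ν t - ν / 2) ^ 2 + t⁻¹) t := by
    intro t ht
    have ht0 : 0 < t := by linarith
    exact (((hy hν (hne t (ht10.trans ht))).sub_const (ν / 2)).inv (hpos t ht).ne').add
      (Real.hasDerivAt_log ht0.ne')
  have hanti : AntitoneOn (fun t => (y ν t - ν / 2)⁻¹ + Real.log t) (Ici t1) := by
    refine antitoneOn_of_deriv_nonpos (convex_Ici t1) ?_ ?_ ?_
    · exact fun u hu => (hq u hu).continuousAt.continuousWithinAt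
    · intro u hu
      rw [interior_Ici] at hu
      exact (hq u (le_of_lt hu)).differentiableAt.differentiableWithinAt
    · intro u hu
      rw [interior_Ici] at hu
      have hu' := le_of_lt (mem_Ioi.mp hu)
      rw [(hq u hu').deriv]
      have hu0 : 0 < u := by linarith
      have h1 := hlow u (ht10.trans hu')
      have h2 := hpos u hu'
      have h3 : (y ν u - ν / 2) ^ 2 / u ≤ ph ν u := by linarith
      have h4 : u⁻¹ ≤ ph ν u / (y ν u - ν / 2) ^ 2 := by
        rw [le_div_iff₀ (by positivity), inv_mul_eq_div]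
        exact h3
      rw [neg_div]
      linarith
  set C := (y ν t1 - ν / 2)⁻¹ + Real.log t1 with hC
  set t2 := max t1 (Real.exp (C + 1)) with ht2
  have h5 := hanti (mem_Ici.mpr le_rfl) (mem_Ici.mpr (le_max_left t1 (Real.exp (C + 1)))) (le_max_left _ _)
  simp only at h5
  have h6 : C + 1 ≤ Real.log t2 := by
    rw [Real.le_log_iff_exp_le (by have := le_max_left t1 (Real.exp (C + 1)); linarith)]
    exact le_max_right _ _
  have h7 : 0 < (y ν t2 - ν / 2)⁻¹ := inv_pos.mpr (hpos t2 (le_max_left _ _))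
  linarith

section enum

variable {f f' : ℝ → ℝ}

lemma zeros_finite (hf : ∀ t, HasDerivAt f (f' t) t) (hs : ∀ t, 0 ≤ t → f t = 0 → f' t ≠ 0) (B : ℝ) :
    {t | t ∈ Icc 0 B ∧ f t = 0}.Finite := by
  have hU : ∀ t ∈ Icc (0:ℝ) B, {s | f s = 0 → s = t} ∈ 𝓝 t := by
    intro t ht
    by_cases h : f t = 0
    · have h1 := (hf t).eventually_ne (c := 0) (hs t ht.1 h)
      rw [eventually_nhdsWithin_iff] at h1
      filter_upwards [h1] with s hs' h0
      by_contra hne
      exact hs' hne h0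
    · filter_upwards [(hf t).continuousAt.eventually_ne h] with s hs' h0
      exact absurd h0 hs'
  obtain ⟨S, hS, hcov⟩ := isCompact_Icc.elim_nhds_subcover (fun t => {s | f s = 0 → s = t}) hU
  refine (S.finite_toSet).subset ?_
  rintro t ⟨ht, h0⟩
  obtain ⟨u, hu, htu⟩ := mem_iUnion₂.mp (hcov ht)
  have := htu h0
  rw [this]
  exact hu

lemma exists_next (hf : ∀ t, HasDerivAt f (f' t) t) (hs : ∀ t, 0 ≤ t → f t = 0 → f' t ≠ 0)
    (hub : ∀ T, ∃ t, T < t ∧ f t = 0) (a : {a : ℝ // 0 ≤ a}) :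
    ∃ b : {b : ℝ // 0 ≤ b}, a.1 < b.1 ∧ f b.1 = 0 ∧ ∀ t, a.1 < t → t < b.1 → f t ≠ 0 := by
  obtain ⟨B, hB, hfB⟩ := hub a.1
  have hfin : {t | t ∈ Ioc a.1 B ∧ f t = 0}.Finite :=
    (zeros_finite hf hs B).subset fun t ht => ⟨⟨a.2.trans ht.1.1.le, ht.1.2⟩, ht.2⟩
  have hne : {t | t ∈ Ioc a.1 B ∧ f t = 0}.Nonempty := ⟨B, ⟨hB, le_rfl⟩, hfB⟩
  obtain ⟨b, hb, hmin⟩ := hfin.exists_minimal hne
  refine ⟨⟨b, a.2.trans hb.1.1.le⟩, hb.1.1, hb.2, fun t hat htb h0 => ?_⟩
  have h1 : t ∈ {t | t ∈ Ioc a.1 B ∧ f t = 0} := ⟨⟨hat, htb.le.trans hb.1.2⟩, h0⟩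
  have := hmin h1 htb.le
  exact absurd htb (not_lt.mpr this)

theorem exists_enum (hf : ∀ t, HasDerivAt f (f' t) t) (hs : ∀ t, 0 ≤ t → f t = 0 → f' t ≠ 0)
    (hub : ∀ T, ∃ t, T < t ∧ f t = 0) :
    ∃ z : ℕ → ℝ, StrictMono z ∧ z 0 = 0 ∧ (∀ n, f (z (n + 1)) = 0) ∧
      (∀ n, ∀ t ∈ Ioo (z n) (z (n + 1)), f t ≠ 0) ∧
      ∀ t, 0 < t → f t = 0 → ∃ k, 1 ≤ k ∧ t = z k := by
  choose g hg1 hg2 hg3 using exists_next hf hs hub
  let w : ℕ → {a : ℝ // 0 ≤ a} := fun n => Nat.rec ⟨0, le_rfl⟩ (fun _ a => g a) n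
  have hw : ∀ n, w (n + 1) = g (w n) := fun n => rfl
  have hmono : StrictMono fun n => (w n).1 := strictMono_nat_of_lt_succ fun n => by
    simp only [hw]; exact hg1 _
  refine ⟨fun n => (w n).1, hmono, rfl, fun n => by simp only [hw]; exact hg2 _,
    fun n t ht => ?_, fun t ht h0 => ?_⟩
  · simp only [hw] at ht
    exact hg3 _ t ht.1 ht.2
  · by_contra hcon
    push Not at hcon
    have hlt : ∀ n, (w n).1 < t := by
      intro n
      induction n with
      | zero => exact ht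
      | succ n ih =>
        have h1 : (w (n + 1)).1 ≤ t := by
          by_contra h2
          push Not at h2
          simp only [hw] at h2
          exact hg3 _ t ih h2 h0
        exact lt_of_le_of_ne h1 (Ne.symm (hcon (n + 1) (by omega)))
    have hfin := zeros_finite hf hs t
    have hinf : (Set.range fun n => (w (n + 1)).1).Infinite :=
      Set.infinite_range_of_injective fun a b hab => by
        have h2 : a + 1 = b + 1 := hmono.injective (a₁ := a + 1) (a₂ := b + 1) hab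
        omega
    refine hinf (hfin.subset ?_)
    rintro _ ⟨n, rfl⟩
    exact ⟨⟨(w (n + 1)).2, (hlt (n + 1)).le⟩, by simp only [hw]; exact hg2 _⟩

end enum

end Pool.Agent.R996.Bess
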